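import Pool.Agent.RS.StmtsF

/-!
# LMC: `lam` of `a / q ^ s` has only powers of the leading coefficient in the denominator
-/

set_option autoImplicit false

namespace Pool.Agent.RS.H88

open MvPolynomial

theorem coeff_mul_mem {R : Type} [CommRing R] (S : Subring R) (f g : Polynomial R)
    (hf : ∀ n, f.coeff n ∈ S) (hg : ∀ n, g.coeff n ∈ S) (n : ℕ) : (f * g).coeff n ∈ S := by
  rw [Polynomial.coeff_mul]
  exact sum_mem fun x _ => mul_mem (hf _) (hg _)

theorem coeff_one_mem {R : Type} [CommRing R] (S : Subring R) (n : ℕ) :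
    (1 : Polynomial R).coeff n ∈ S := by
  rw [Polynomial.coeff_one]
  split_ifs
  · exact one_mem S
  · exact zero_mem S

theorem coeff_pow_mem {R : Type} [CommRing R] (S : Subring R) (f : Polynomial R)
    (hf : ∀ n, f.coeff n ∈ S) (s : ℕ) : ∀ n, (f ^ s).coeff n ∈ S := by
  induction s with
  | zero =>
    intro n
    rw [pow_zero]
    exact coeff_one_mem S n
  | succ s ih =>
    intro n
    rw [pow_succ]
    exact coeff_mul_mem S _ _ ih hf n

theorem coeff_X_pow_mem {R : Type} [CommRing R] (S : Subring R) (c n : ℕ) :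
    ((Polynomial.X : Polynomial R) ^ c).coeff n ∈ S := by
  rw [Polynomial.coeff_X_pow]
  split_ifs
  · exact one_mem S
  · exact zero_mem S

theorem lmc (psd : PsdStmt) (hres : ResStmt) (htxc : TxcStmt) (pjb : PjbStmt) : LmcStmt := by
  intro E _ J j q a c s hjq hq ha
  have hdegq : (atX j (io E) q).natDegree = (toX j q).natDegree :=
    Polynomial.natDegree_map_eq_of_injective io_injective (toX j q)
  have hdq : 0 < (toX j q).natDegree := (htxc E j q).2.2.2.1.2 hjq
  have hdeg : 0 < (atX j (io E) q).natDegree := by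
    rw [hdegq]
    exact hdq
  obtain ⟨hR1, hR2⟩ := hres (FF E) (atX j (io E) q) hdeg
  set Λ := res (atX j (io E) q) with hΛ
  have hvan : ∀ h : Polynomial (FF E), Λ (algebraMap _ (RatFunc (FF E)) h) = 0 := by
    intro h
    have h1 := hR1 h 1 one_ne_zero isCoprime_one_left
    rwa [map_one, div_one] at h1
  have hlam : lam j q c (io E a / io E q ^ s) =
      Λ (algebraMap (Polynomial (FF E)) (RatFunc (FF E)) (Polynomial.X ^ c * atX j (io E) a) /
        algebraMap (Polynomial (FF E)) (RatFunc (FF E)) (atX j (io E) q) ^ s) := by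
    rw [lam_apply, map_div₀, map_pow (up j), up_io, up_io,
      map_mul (algebraMap (Polynomial (FF E)) (RatFunc (FF E))), mul_div_assoc]
  rcases Nat.eq_zero_or_pos s with hs | hs
  · refine ⟨0, 0, zero_mem _, ?_⟩
    rw [hlam, hs, pow_zero, div_one, hvan, map_zero, zero_div]
  obtain ⟨-, -, -, hco, -, -, -, -⟩ := pjb E
  have hqS := hco J j q hq
  have haS := hco J j a ha
  have hGd : ((toX j q) ^ s).natDegree = s * (toX j q).natDegree := Polynomial.natDegree_pow _ _
  obtain ⟨M, h, r, hfac, hrd, hhS, hrS⟩ := psd (MvPolynomial ℕ E) (PJ E (insert j J))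
    (Polynomial.X ^ c * toX j a) ((toX j q) ^ s) (by rw [hGd]; positivity)
    (coeff_mul_mem _ _ _ (coeff_X_pow_mem _ c) haS) (coeff_pow_mem _ _ hqS s)
  refine ⟨s * M + s, r.coeff (s * (toX j q).natDegree - 1), hrS _, ?_⟩
  rw [hlam]
  have hlc : (atX j (io E) q).leadingCoeff = io E (lcx j q) := by
    rw [Polynomial.leadingCoeff, hdegq]
    exact Polynomial.coeff_map _ _
  have hlc0 : io E (lcx j q) ≠ 0 := by
    rw [← hlc]
    apply Polynomial.leadingCoeff_ne_zero.2
    intro h0
    rw [h0] at hdeg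
    simp at hdeg
  rw [Polynomial.leadingCoeff_pow] at hfac
  have hfac2 : Polynomial.C ((io E (lcx j q)) ^ (s * M)) *
      (Polynomial.X ^ c * atX j (io E) a) =
      atX j (io E) q ^ s * h.map (io E) + r.map (io E) := by
    have h1 := congrArg (Polynomial.map (io E)) hfac
    simp only [Polynomial.map_mul, Polynomial.map_add, Polynomial.map_pow, Polynomial.map_X,
      Polynomial.map_C] at h1
    rw [← pow_mul, map_pow] at h1
    exact h1
  have hq0 : algebraMap (Polynomial (FF E)) (RatFunc (FF E)) (atX j (io E) q) ^ s ≠ 0 := by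
    apply pow_ne_zero
    intro h0
    have h1 : atX j (io E) q = 0 :=
      IsFractionRing.injective (Polynomial (FF E)) (RatFunc (FF E)) (h0.trans (map_zero _).symm)
    rw [h1] at hdeg
    simp at hdeg
  set k : FF E := (io E (lcx j q)) ^ (s * M) with hk
  have hk0 : k ≠ 0 := pow_ne_zero _ hlc0
  have h1 : k • (algebraMap (Polynomial (FF E)) (RatFunc (FF E))
      (Polynomial.X ^ c * atX j (io E) a) /
        algebraMap (Polynomial (FF E)) (RatFunc (FF E)) (atX j (io E) q) ^ s) =
      algebraMap (Polynomial (FF E)) (RatFunc (FF E)) (h.map (io E)) +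
      algebraMap (Polynomial (FF E)) (RatFunc (FF E)) (r.map (io E)) /
        algebraMap (Polynomial (FF E)) (RatFunc (FF E)) (atX j (io E) q) ^ s := by
    have h2 : ∀ w : RatFunc (FF E), k • w =
        algebraMap (Polynomial (FF E)) (RatFunc (FF E)) (Polynomial.C k) * w := by
      intro w
      rw [RatFunc.algebraMap_C, RatFunc.smul_eq_C_mul]
    rw [h2, ← mul_div_assoc, ← map_mul, hfac2, map_add, map_mul, map_pow, add_div,
      mul_comm, mul_div_assoc, div_self hq0, mul_one]
  have h2 := congrArg Λ h1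
  rw [map_smul, map_add, hvan, zero_add] at h2
  have h3 := hR2 (r.map (io E)) s (by
    rw [hdegq]
    refine lt_of_le_of_lt Polynomial.degree_le_natDegree ?_
    rw [Polynomial.natDegree_map_eq_of_injective io_injective]
    rw [hGd] at hrd
    exact_mod_cast hrd)
  rw [h3, hlc, hdegq, Polynomial.coeff_map, smul_eq_mul] at h2
  rw [pow_add, ← hk]
  have h4 : io E (lcx j q) ^ s ≠ 0 := pow_ne_zero _ hlc0
  rw [eq_div_iff (mul_ne_zero hk0 h4)]
  rw [eq_div_iff h4] at h2
  rw [← h2]
  ring

end Pool.Agent.RS.H88
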